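import Pool.Agent.R3B.StmtsU

/-!
# Squad R3B (MP_be01ff_an), row DRP: the drop of the energy
-/

set_option autoImplicit false

open Real Filter Topology Set MeasureTheory

namespace Pool.Agent.R3B.H61

open Pool.Agent.R3B
open Pool.Agent.Helper39_Wave (phi mul_phi abs_phi sq_integral_mul_le integral_reflect
  integral_swap_cont)
open Pool.Agent.Helper72_Shell (CharSol En psi fold ff)

variable {κ α ℓ b0 : ℝ} {b : ℝ → ℝ} {P : ℝ → ℝ → ℝ} {T w : ℝ} {W : ℝ → ℝ}

theorem rpow_split (hα : 0 < α) (D : ℝ) : |D| ^ (α + 2) = |D| ^ α * D ^ 2 := by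
  rw [← mul_phi hα]
  unfold phi
  ring

/-- the density of the dissipation -/
theorem dens (h : CharSol κ α ℓ b0 b P) (hW : Ker κ α ℓ b P T w W) {s : ℝ} (hs : T ≤ s) (y : ℝ) :
    κ * (b (y - s) * |P s y - P s (2 * s - y)| ^ (α + 2)) ≤
      W (y - s) * (P s y - P s (2 * s - y)) ^ 2 := by
  rw [rpow_split h.apos]
  have h2 := mul_le_mul_of_nonneg_right (hW.bd s y hs) (sq_nonneg (P s y - P s (2 * s - y)))
  calc _ = κ * b (y - s) * |P s y - P s (2 * s - y)| ^ α * (P s y - P s (2 * s - y)) ^ 2 := by ring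
    _ ≤ _ := h2

/-- the square of the nonlinearity -/
theorem ff_sq (h : CharSol κ α ℓ b0 b P) (hW : Ker κ α ℓ b P T w W) {s : ℝ} (hs : T ≤ s) (y : ℝ) :
    (κ * |ff α b P s y|) ^ 2 ≤
      W (y - s) * (κ * (b (y - s) * |P s y - P s (2 * s - y)| ^ (α + 2))) := by
  have hb := h.bnn (y - s)
  have h1 : |ff α b P s y| = b (y - s) * (|P s y - P s (2 * s - y)| ^ α *
      |P s y - P s (2 * s - y)|) := by
    unfold ff
    rw [abs_mul, abs_of_nonneg hb, abs_phi]
  have h3 : (κ * |ff α b P s y|) ^ 2 =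
      (κ * b (y - s) * |P s y - P s (2 * s - y)| ^ α) *
        (κ * (b (y - s) * |P s y - P s (2 * s - y)| ^ (α + 2))) := by
    rw [h1, rpow_split h.apos]
    have h4 : |P s y - P s (2 * s - y)| ^ 2 = (P s y - P s (2 * s - y)) ^ 2 := sq_abs _
    calc _ = (κ * b (y - s) * |P s y - P s (2 * s - y)| ^ α) ^ 2 *
        |P s y - P s (2 * s - y)| ^ 2 := by ring
      _ = (κ * b (y - s) * |P s y - P s (2 * s - y)| ^ α) ^ 2 *
        (P s y - P s (2 * s - y)) ^ 2 := by rw [h4]
      _ = _ := by ring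
  rw [h3]
  apply mul_le_mul_of_nonneg_right (hW.bd s y hs)
  exact mul_nonneg h.kpos.le (mul_nonneg hb (Real.rpow_nonneg (abs_nonneg _) _))

theorem perW (hW : Ker κ α ℓ b P T w W) : Function.Periodic W (2 * ℓ) := hW.per

/-- the integral of `W` in the time variable -/
theorem int_W (hW : Ker κ α ℓ b P T w W) (y : ℝ) :
    ∫ s in T..(T + 2 * ℓ), W (y - s) = ∫ x in (0 : ℝ)..(2 * ℓ), W x := by
  rw [intervalIntegral.integral_comp_sub_left]
  have h1 : y - T = (y - (T + 2 * ℓ)) + 2 * ℓ := by ring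
  rw [h1, (perW hW).intervalIntegral_add_eq (y - (T + 2 * ℓ)) 0, zero_add]

theorem psi_W (h : CharSol κ α ℓ b0 b P) (hW : Ker κ α ℓ b P T w W) {s : ℝ} (hs : T ≤ s) :
    κ * psi α ℓ b P s ≤ 4 * ∫ y in (0 : ℝ)..(2 * ℓ), W (y - s) * P s y ^ 2 := by
  have hℓ := h.lpos
  have hWc : Continuous (fun y => W (y - s)) := hW.cont.comp (by fun_prop)
  have cP : Continuous (fun y => P s y) := h.contP continuous_const continuous_id
  have cPr : Continuous (fun y => P s (2 * s - y)) := h.contP continuous_const (by fun_prop)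
  have c1 : Continuous (fun y => W (y - s) * P s y ^ 2) := hWc.mul (cP.pow 2)
  have c2 : Continuous (fun y => W (y - s) * P s (2 * s - y) ^ 2) := hWc.mul (cPr.pow 2)
  have hpt : ∀ y ∈ Icc (0 : ℝ) (2 * ℓ),
      κ * (b (y - s) * |P s y - P s (2 * s - y)| ^ (α + 2)) ≤
      2 * (W (y - s) * P s y ^ 2 + W (y - s) * P s (2 * s - y) ^ 2) := by
    intro y _
    refine (dens h hW hs y).trans ?_
    have h5 : (P s y - P s (2 * s - y)) ^ 2 ≤ 2 * (P s y ^ 2 + P s (2 * s - y) ^ 2) := by
      have := sq_nonneg (P s y + P s (2 * s - y))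
      nlinarith
    have h6 := mul_le_mul_of_nonneg_left h5 (hW.nn (y - s))
    linarith
  have cD : Continuous (fun y => κ * (b (y - s) * |P s y - P s (2 * s - y)| ^ (α + 2))) :=
    continuous_const.mul (h.cD continuous_const continuous_id)
  have e1 : ∫ y in (0 : ℝ)..(2 * ℓ), κ * (b (y - s) * |P s y - P s (2 * s - y)| ^ (α + 2)) ≤
      ∫ y in (0 : ℝ)..(2 * ℓ), 2 * (W (y - s) * P s y ^ 2 + W (y - s) * P s (2 * s - y) ^ 2) :=
    intervalIntegral.integral_mono_on (by linarith) (cD.intervalIntegrable _ _)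
      ((continuous_const.mul (c1.add c2)).intervalIntegrable _ _) hpt
  rw [intervalIntegral.integral_const_mul, intervalIntegral.integral_const_mul,
    intervalIntegral.integral_add (c1.intervalIntegrable _ _) (c2.intervalIntegrable _ _)] at e1
  have e2 : ∫ y in (0 : ℝ)..(2 * ℓ), W (y - s) * P s (2 * s - y) ^ 2 =
      ∫ y in (0 : ℝ)..(2 * ℓ), W (y - s) * P s y ^ 2 := by
    have e3 := integral_reflect (g := fun y => W (y - s) * P s y ^ 2) (ℓ := ℓ)
      (by
        intro y
        simp only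
        rw [h.per, show y + 2 * ℓ - s = (y - s) + 2 * ℓ by ring, hW.per]) s
    rw [← e3]
    congr 1
    funext y
    rw [show 2 * s - y - s = -(y - s) by ring, hW.even]
  rw [e2] at e1
  unfold psi
  linarith

/-- Row DRP -/
theorem drp : DrpStmt := by
  intro κ α ℓ b0 b P T w W h hT hW
  have hα := h.apos
  have hℓ := h.lpos
  have hκ := h.kpos
  have hl2 : (0 : ℝ) ≤ 2 * ℓ := by linarith
  set w₀ : ℝ := ∫ x in (0 : ℝ)..(2 * ℓ), W x with hw₀
  have hw₀0 : 0 ≤ w₀ := intervalIntegral.integral_nonneg hl2 (fun x _ => hW.nn x)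
  have hw₀w : w₀ ≤ w := hW.int
  set F : ℝ → ℝ := fun y => κ * ∫ r in T..(T + 2 * ℓ), |ff α b P r y| with hF
  have cff2 : Continuous (fun z : ℝ × ℝ => ff α b P z.2 z.1) := h.cff continuous_snd continuous_fst
  have cF : Continuous F := by
    apply continuous_const.mul
    apply intervalIntegral.continuous_parametric_intervalIntegral_of_continuous'
    exact cff2.abs
  have hF0 : ∀ y, 0 ≤ F y := fun y => mul_nonneg hκ.le
    (intervalIntegral.integral_nonneg (by linarith) (fun _ _ => abs_nonneg _))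
  set drop : ℝ := En ℓ P T - En ℓ P (T + 2 * ℓ) with hdrop
  have hid : drop = κ * ∫ s in T..(T + 2 * ℓ), psi α ℓ b P s :=
    h.energy_identity hT (by linarith)
  -- the bound of `P` by `P(T)` and `F`
  have hP : ∀ s ∈ Icc T (T + 2 * ℓ), ∀ y, P s y ^ 2 ≤ 2 * P T y ^ 2 + 2 * F y ^ 2 := by
    intro s hs y
    have cfr : Continuous (fun r => |ff α b P r y|) := (h.cff continuous_id continuous_const).abs
    have e1 : P s y - P T y = -κ * ∫ r in T..s, ff α b P r y := h.ode T s y hT hs.1
    have e2 : |P s y - P T y| ≤ F y := by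
      rw [e1, abs_mul, abs_neg, abs_of_pos hκ]
      apply mul_le_mul_of_nonneg_left _ hκ.le
      calc |∫ r in T..s, ff α b P r y| ≤ ∫ r in T..s, |ff α b P r y| :=
            intervalIntegral.abs_integral_le_integral_abs hs.1
        _ ≤ ∫ r in T..(T + 2 * ℓ), |ff α b P r y| := by
            apply intervalIntegral.integral_mono_interval le_rfl hs.1 hs.2
            · exact Eventually.of_forall (fun _ => abs_nonneg _)
            · exact cfr.intervalIntegrable _ _
    have e3 : (P s y - P T y) ^ 2 ≤ F y ^ 2 := by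
      rw [← sq_abs (P s y - P T y)]
      exact pow_le_pow_left₀ (abs_nonneg _) e2 2
    have e4 := sq_nonneg (P s y - 2 * P T y)
    nlinarith
  -- the square of `F`
  have hF2 : ∀ y, F y ^ 2 ≤ w₀ * ∫ r in T..(T + 2 * ℓ),
      κ * (b (y - r) * |P r y - P r (2 * r - y)| ^ (α + 2)) := by
    intro y
    have cfr : Continuous (fun r => κ * |ff α b P r y|) :=
      continuous_const.mul (h.cff continuous_id continuous_const).abs
    have cWr : Continuous (fun r => W (y - r)) := hW.cont.comp (by fun_prop)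
    have cDr : Continuous (fun r => κ * (b (y - r) * |P r y - P r (2 * r - y)| ^ (α + 2))) :=
      continuous_const.mul (h.cD continuous_id continuous_const)
    have hD0 : ∀ r, 0 ≤ κ * (b (y - r) * |P r y - P r (2 * r - y)| ^ (α + 2)) := fun r =>
      mul_nonneg hκ.le (mul_nonneg (h.bnn _) (Real.rpow_nonneg (abs_nonneg _) _))
    set u : ℝ → ℝ := fun r => √(W (y - r)) with hu
    set v : ℝ → ℝ := fun r => √(κ * (b (y - r) * |P r y - P r (2 * r - y)| ^ (α + 2))) with hv
    have cu : Continuous u := cWr.sqrt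
    have cv : Continuous v := cDr.sqrt
    have e1 : F y ≤ ∫ r in T..(T + 2 * ℓ), u r * v r := by
      simp only [hF]
      rw [← intervalIntegral.integral_const_mul]
      apply intervalIntegral.integral_mono_on (by linarith) (cfr.intervalIntegrable _ _)
        ((cu.mul cv).intervalIntegrable _ _)
      intro r hr
      show κ * |ff α b P r y| ≤ √(W (y - r)) *
        √(κ * (b (y - r) * |P r y - P r (2 * r - y)| ^ (α + 2)))
      rw [← Real.sqrt_mul (hW.nn _)]
      exact Real.le_sqrt_of_sq_le (ff_sq h hW hr.1 y)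
    have e2 := sq_integral_mul_le (by linarith : T ≤ T + 2 * ℓ) cu cv
    have e3 : ∫ r in T..(T + 2 * ℓ), u r ^ 2 = w₀ := by
      rw [hw₀, ← int_W hW y]
      congr 1
      funext r
      exact Real.sq_sqrt (hW.nn _)
    have e4 : ∫ r in T..(T + 2 * ℓ), v r ^ 2 = ∫ r in T..(T + 2 * ℓ),
        κ * (b (y - r) * |P r y - P r (2 * r - y)| ^ (α + 2)) := by
      congr 1
      funext r
      exact Real.sq_sqrt (hD0 r)
    rw [e3, e4] at e2
    exact (pow_le_pow_left₀ (hF0 y) e1 2).trans e2
  -- integral of the square of `F`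
  have cRR : Continuous (fun z : ℝ × ℝ =>
      κ * (b (z.1 - z.2) * |P z.2 z.1 - P z.2 (2 * z.2 - z.1)| ^ (α + 2))) :=
    continuous_const.mul (h.cD continuous_snd continuous_fst)
  have hF3 : ∫ y in (0 : ℝ)..(2 * ℓ), F y ^ 2 ≤ w₀ * drop := by
    have cR : Continuous (fun y => ∫ r in T..(T + 2 * ℓ),
        κ * (b (y - r) * |P r y - P r (2 * r - y)| ^ (α + 2))) := by
      apply intervalIntegral.continuous_parametric_intervalIntegral_of_continuous'
      exact cRR
    have e1 : ∫ y in (0 : ℝ)..(2 * ℓ), F y ^ 2 ≤ ∫ y in (0 : ℝ)..(2 * ℓ),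
        w₀ * ∫ r in T..(T + 2 * ℓ), κ * (b (y - r) * |P r y - P r (2 * r - y)| ^ (α + 2)) :=
      intervalIntegral.integral_mono_on hl2 ((cF.pow 2).intervalIntegrable _ _)
        ((continuous_const.mul cR).intervalIntegrable _ _) (fun y _ => hF2 y)
    rw [intervalIntegral.integral_const_mul,
      integral_swap_cont (F := fun y r => κ * (b (y - r) *
        |P r y - P r (2 * r - y)| ^ (α + 2))) cRR] at e1
    have e2 : ∫ r in T..(T + 2 * ℓ), ∫ y in (0 : ℝ)..(2 * ℓ),
        κ * (b (y - r) * |P r y - P r (2 * r - y)| ^ (α + 2)) = drop := by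
      rw [hid, ← intervalIntegral.integral_const_mul]
      congr 1
      funext r
      rw [intervalIntegral.integral_const_mul]
      rfl
    rw [e2] at e1
    exact e1
  -- the main estimate
  have cWP : Continuous (fun z : ℝ × ℝ => W (z.2 - z.1) * P z.1 z.2 ^ 2) :=
    (hW.cont.comp (by fun_prop)).mul (h.cont.pow 2)
  have hmain : drop ≤ 8 * w₀ * (En ℓ P T + ∫ y in (0 : ℝ)..(2 * ℓ), F y ^ 2) := by
    have cI : Continuous (fun s => ∫ y in (0 : ℝ)..(2 * ℓ), W (y - s) * P s y ^ 2) := by
      apply intervalIntegral.continuous_parametric_intervalIntegral_of_continuous'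
      exact cWP
    have e1 : drop ≤ ∫ s in T..(T + 2 * ℓ), 4 * ∫ y in (0 : ℝ)..(2 * ℓ), W (y - s) * P s y ^ 2 := by
      rw [hid, ← intervalIntegral.integral_const_mul]
      apply intervalIntegral.integral_mono_on (by linarith)
        ((continuous_const.mul h.psi_cont).intervalIntegrable _ _)
        ((continuous_const.mul cI).intervalIntegrable _ _)
      intro s hs
      exact psi_W h hW hs.1
    rw [intervalIntegral.integral_const_mul,
      integral_swap_cont (F := fun s y => W (y - s) * P s y ^ 2) cWP] at e1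
    have cJ : Continuous (fun y => ∫ s in T..(T + 2 * ℓ), W (y - s) * P s y ^ 2) := by
      apply intervalIntegral.continuous_parametric_intervalIntegral_of_continuous'
      exact (hW.cont.comp (by fun_prop : Continuous fun z : ℝ × ℝ => z.1 - z.2)).mul
        ((h.contP continuous_snd continuous_fst).pow 2)
    have cPT : Continuous (fun y => P T y ^ 2) := (h.contP continuous_const continuous_id).pow 2
    have cF2 : Continuous (fun y => F y ^ 2) := cF.pow 2
    have hpt : ∀ y ∈ Icc (0 : ℝ) (2 * ℓ), ∫ s in T..(T + 2 * ℓ), W (y - s) * P s y ^ 2 ≤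
        (2 * w₀) * (P T y ^ 2 + F y ^ 2) := by
      intro y _
      have cWr : Continuous (fun s => W (y - s)) := hW.cont.comp (by fun_prop)
      have cPs : Continuous (fun s => P s y ^ 2) := (h.contP continuous_id continuous_const).pow 2
      have a1 : ∫ s in T..(T + 2 * ℓ), W (y - s) * P s y ^ 2 ≤
          ∫ s in T..(T + 2 * ℓ), W (y - s) * (2 * P T y ^ 2 + 2 * F y ^ 2) :=
        intervalIntegral.integral_mono_on (by linarith) ((cWr.mul cPs).intervalIntegrable _ _)
          ((cWr.mul continuous_const).intervalIntegrable _ _)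
          (fun s hs => mul_le_mul_of_nonneg_left (hP s hs y) (hW.nn _))
      rw [intervalIntegral.integral_mul_const, int_W hW y, ← hw₀] at a1
      linarith
    have e2 : ∫ y in (0 : ℝ)..(2 * ℓ), ∫ s in T..(T + 2 * ℓ), W (y - s) * P s y ^ 2 ≤
        ∫ y in (0 : ℝ)..(2 * ℓ), (2 * w₀) * (P T y ^ 2 + F y ^ 2) :=
      intervalIntegral.integral_mono_on hl2 (cJ.intervalIntegrable _ _)
        ((continuous_const.mul (cPT.add cF2)).intervalIntegrable _ _) hpt
    rw [intervalIntegral.integral_const_mul, intervalIntegral.integral_add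
      (cPT.intervalIntegrable _ _) (cF2.intervalIntegrable _ _)] at e2
    have e3 : ∫ y in (0 : ℝ)..(2 * ℓ), P T y ^ 2 = En ℓ P T := rfl
    rw [e3] at e2
    linarith
  have hE := h.En_nonneg T
  have hE2 := h.En_nonneg (T + 2 * ℓ)
  have hd0 : 0 ≤ drop := by
    have := h.En_anti hT (by linarith : T ≤ T + 2 * ℓ)
    rw [hdrop]
    linarith
  have hw0 : 0 ≤ w := hw₀0.trans hw₀w
  have hm2 : drop ≤ 8 * w₀ * (En ℓ P T + w₀ * drop) := by
    refine hmain.trans ?_
    apply mul_le_mul_of_nonneg_left _ (by positivity)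
    linarith
  by_cases hc : 8 * w₀ ^ 2 ≤ 1 / 2
  · have h1 : 8 * w₀ ^ 2 * drop ≤ 1 / 2 * drop := mul_le_mul_of_nonneg_right hc hd0
    have h2 : w₀ * En ℓ P T ≤ w * En ℓ P T := mul_le_mul_of_nonneg_right hw₀w hE
    nlinarith
  · push Not at hc
    have h3 : 1 / 16 < w₀ := by nlinarith
    have h4 : 1 / 16 ≤ w := by linarith
    have h5 : 1 / 16 * En ℓ P T ≤ w * En ℓ P T := mul_le_mul_of_nonneg_right h4 hE
    have h6 : drop ≤ En ℓ P T := by
      rw [hdrop]
      linarith
    linarith

end Pool.Agent.R3B.H61
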